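import Pool.Agent.N62.AG.Stm
import Pool.Agent.Y545.Z702.Tor

/-!
Project AG (helper62), part SND1 (helper186): soundness of the first search.
-/

set_option autoImplicit false

namespace Pool.Agent.N186.AG.SND1

open WeierstrassCurve Pool.Agent.Y668 Pool.Agent.N62.AG

theorem sq_of_isSquare {n : ℤ} (h : IsSquare n) : Sq n := by
  obtain ⟨s, rfl⟩ := h
  refine ⟨s.natAbs, ?_, ?_⟩
  · rw [Int.natAbs_mul]
    nlinarith [Nat.zero_le s.natAbs, Nat.le_mul_self s.natAbs]
  · exact Int.natAbs_mul_self' s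

theorem sq_of_isSquare_rat {n : ℤ} (h : IsSquare (n : ℚ)) : Sq n :=
  sq_of_isSquare (Rat.isSquare_intCast_iff.1 h)

/-- finitely many points on the model with the point `(0, 0)` of order two -/
theorem fin_of {D : ℤ} (hf : (Pts D).Finite) :
    Finite (Wt (13 * (D : ℚ)) (128 * (D : ℚ) ^ 2)).toAffine.Point := by
  have : Finite (Pts D) := hf.to_subtype
  have key : ∀ x y : ℚ, y ^ 2 = x ^ 3 + (13 * (D : ℚ)) * x ^ 2 + (128 * (D : ℚ) ^ 2) * x →
      ((9 * x + 39 * (D : ℚ), 27 * y) : ℚ × ℚ) ∈ Pts D := by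
    intro x y h
    change (27 * y) ^ 2 = (9 * x + 39 * (D : ℚ)) ^ 3 + (AA D : ℚ) * (9 * x + 39 * (D : ℚ)) +
      (BB D : ℚ)
    unfold AA BB
    push_cast
    linear_combination 729 * h
  let F : (Wt (13 * (D : ℚ)) (128 * (D : ℚ) ^ 2)).toAffine.Point → Option (Pts D) :=
    fun P => match P with
    | .zero => none
    | .some x y h => some ⟨_, key x y (Wt_eqn.mp h.1)⟩
  apply Finite.of_injective F
  intro P Q hPQ
  cases P with
  | zero =>
    cases Q with
    | zero => rfl
    | some x y h => simp [F] at hPQ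
  | some x y h =>
    cases Q with
    | zero => simp [F] at hPQ
    | some x' y' h' =>
      simp only [F, Option.some.injEq, Subtype.mk.injEq, Prod.mk.injEq] at hPQ
      obtain ⟨h1, h2⟩ := hPQ
      have e1 : x = x' := by linarith
      have e2 : y = y' := by linarith
      subst e1
      subst e2
      rfl

theorem t : Pool.Agent.N62.AG.S_SND1 := by
  intro D t hD hC hcon
  obtain ⟨h1, h3, heq, hs1, hs2⟩ := hC
  have hDq : (D : ℚ) ≠ 0 := by exact_mod_cast hD
  have hD2 : 0 < (D : ℚ) ^ 2 := by positivity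
  have hf := fin_of hcon
  have hf2 := Pool.Agent.Y545.Z702.fin_iso (a := 13 * (D : ℚ)) (b := 128 * (D : ℚ) ^ 2)
    (by positivity) (by nlinarith) hf
  have ea : (-2 * (13 * (D : ℚ))) = ((-26 * D : ℤ) : ℚ) := by push_cast; ring
  have eb : ((13 * (D : ℚ)) ^ 2 - 4 * (128 * (D : ℚ) ^ 2)) = ((-343 * D ^ 2 : ℤ) : ℚ) := by
    push_cast; ring
  rw [ea, eb] at hf2
  have ec : (((-26 * D : ℤ) : ℚ) ^ 2 - 4 * ((-343 * D ^ 2 : ℤ) : ℚ)) = 2 * (32 * (D : ℚ)) ^ 2 := by
    push_cast; ring
  have ht1 : (t.1 : ℚ) ≠ 0 := by exact_mod_cast h1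
  have ht3 : (t.2.2 : ℚ) ≠ 0 := by exact_mod_cast h3
  have heq' : (t.2.1 : ℚ) * t.2.1 * t.2.2 = t.1 * (t.1 * t.1) + 13 * D * (t.1 * t.1) * t.2.2 +
    128 * (D * D) * t.1 * (t.2.2 * t.2.2) := by exact_mod_cast heq
  have hns2 : ¬ IsSquare (2 : ℚ) := by
    intro h
    have h' : IsSquare ((2 : ℤ) : ℚ) := by exact_mod_cast h
    rw [Rat.isSquare_intCast_iff] at h'
    obtain ⟨r, hr⟩ := h'
    have : r ≤ 1 := by nlinarith
    have : -1 ≤ r := by nlinarith
    interval_cases r <;> omega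
  have hsq2 : ∀ z : ℚ, IsSquare (z * (2 * (32 * (D : ℚ)) ^ 2)) → IsSquare (2 * z) := by
    rintro z ⟨s, hs⟩
    refine ⟨s / (32 * (D : ℚ)), ?_⟩
    field_simp
    linear_combination hs
  have hT := Pool.Agent.Y545.Z702.t_TOR (-26 * D) (-343 * D ^ 2) (t.1 * t.2.2)
    (by
      intro h
      have : D ^ 2 = 0 := by linarith
      exact hD (pow_eq_zero_iff (two_ne_zero) |>.1 this))
    (by
      intro h
      have : D ^ 2 = 0 := by linarith [sq_nonneg D]
      exact hD (pow_eq_zero_iff (two_ne_zero) |>.1 this))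
    (by
      rintro ⟨s, hs⟩
      push_cast at hs
      nlinarith [mul_self_nonneg s])
    (by
      rw [ec]
      intro h
      have := hsq2 1 (by rw [one_mul]; exact h)
      rw [mul_one] at this
      exact hns2 this)
    hf2
    (by
      refine ⟨4 * t.1 / t.2.2, 8 * t.2.1 / t.2.2, 2 / t.2.2, ?_, ?_, ?_⟩
      · positivity
      · rw [ec]
        push_cast
        field_simp
        linear_combination 64 * heq'
      · push_cast
        field_simp
        ring)
  rcases hT with h | h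
  · exact hs1 (sq_of_isSquare_rat (by exact_mod_cast h))
  · rw [ec] at h
    have h4 := hsq2 _ h
    apply hs2
    apply sq_of_isSquare_rat
    push_cast
    push_cast at h4
    exact h4

end Pool.Agent.N186.AG.SND1
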